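import Pool.Agent.H59TE.Data

/-!
# No four configurations on five elements
-/

set_option autoImplicit false

namespace Pool.Agent.H59TE

/-- The code of four masks. -/
def code (a b c d : ℕ) : ℕ := a + 32 * b + 1024 * c + 32768 * d

/-- The configuration of an ordering and a type. -/
def cfg (t : ℕ × ℕ × ℕ × ℕ × ℕ) (v : Bool × Bool × Bool × Bool) : ℕ :=
  code (t.1 + t.2.1 + cond v.1 t.2.2.2.2 0) (t.2.2.1 + t.2.2.2.1 + cond v.2.1 t.2.2.2.2 0)
    (t.1 + t.2.2.1 + cond v.2.2.1 t.2.2.2.2 0) (t.2.1 + t.2.2.2.1 + cond v.2.2.2 t.2.2.2.2 0)

/-- All configurations. -/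
def gen : List ℕ := perms.flatMap fun t => types.map fun v => cfg t v

theorem gen_eq : gen = lits := by decide +kernel

/-- The masks meet. -/
def ge1 (a b : ℕ) : Bool := !(Nat.beq (Nat.land a b) 0)

/-- The masks do not meet in exactly one bit. -/
def ne1 (a b : ℕ) : Bool :=
  Nat.beq (Nat.land (Nat.shiftRight 4294901481 (Nat.land a b)) 1) 1

/-- The orthogonality condition. -/
def orth (s : Bool) (a b : ℕ) : Bool := cond s (ge1 a b) (ne1 a b)

/-- The masks of a code. -/
def mA (n : ℕ) : ℕ := Nat.land n 31
def mB (n : ℕ) : ℕ := Nat.land (Nat.shiftRight n 5) 31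
def mC (n : ℕ) : ℕ := Nat.land (Nat.shiftRight n 10) 31
def mD (n : ℕ) : ℕ := Nat.shiftRight n 15

/-- Compatibility of two codes; `s00` etc. say whether the representatives agree. -/
def comp (s00 s01 s10 s11 : Bool) (x y : ℕ) : Bool :=
  orth s00 (mA x) (mC y) && orth s01 (mA x) (mD y) && orth s10 (mB x) (mC y) &&
  orth s11 (mB x) (mD y) && orth s00 (mA y) (mC x) && orth s01 (mA y) (mD x) &&
  orth s10 (mB y) (mC x) && orth s11 (mB y) (mD x)

/-- Strict filter with continuation. -/
def filterK (p : ℕ → Bool) : List ℕ → List ℕ → (List ℕ → Bool) → Bool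
  | [], acc, k => k acc
  | x :: xs, acc, k => match p x with
    | true => filterK p xs (x :: acc) k
    | false => filterK p xs acc k

theorem filterK_spec (p : ℕ → Bool) (L : List ℕ) : ∀ (acc : List ℕ) (k : List ℕ → Bool),
    filterK p L acc k = true → ∃ M : List ℕ, k M = true ∧ (∀ x ∈ acc, x ∈ M) ∧
      ∀ x ∈ L, p x = true → x ∈ M := by
  induction L with
  | nil =>
    intro acc k h
    exact ⟨acc, h, fun x hx => hx, fun x hx => absurd hx (List.not_mem_nil)⟩
  | cons a L ih =>
    intro acc k h
    cases hp : p a with
    | true =>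
      have h' : filterK p L (a :: acc) k = true := by
        rw [filterK, hp] at h
        exact h
      obtain ⟨M, h1, h2, h3⟩ := ih _ k h'
      refine ⟨M, h1, fun x hx => h2 x (List.mem_cons_of_mem _ hx), ?_⟩
      intro x hx hpx
      rcases List.mem_cons.1 hx with rfl | hx
      · exact h2 x List.mem_cons_self
      · exact h3 x hx hpx
    | false =>
      have h' : filterK p L acc k = true := by
        rw [filterK, hp] at h
        exact h
      obtain ⟨M, h1, h2, h3⟩ := ih _ k h'
      refine ⟨M, h1, h2, ?_⟩
      intro x hx hpx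
      rcases List.mem_cons.1 hx with rfl | hx
      · rw [hp] at hpx
        exact absurd hpx (by decide)
      · exact h3 x hx hpx

/-- The search for the other three configurations. -/
def search (x : ℕ) : Bool :=
  filterK (comp false true true true x) lits [] fun L1 =>
  filterK (comp true false false true x) lits [] fun L2 =>
  filterK (comp true true true false x) lits [] fun L3 =>
  L1.all fun a => L2.all fun b => !(comp false false false true a b) ||
    L3.all fun c => !(comp false true true false a c && comp true false false false b c)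

/-- The first configurations. -/
def firsts : List ℕ := types.map fun v => cfg (1, 2, 4, 8, 16) v

theorem search_all : firsts.all search = true := by decide +kernel

end Pool.Agent.H59TE
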