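import Pool.Agent.H59TE.Refl

/-!
# No four configurations on five elements: the theorem
-/

set_option autoImplicit false

namespace Pool.Agent.H59TE

/-- The cell `(i, j)` has the changed representative in the label `l` (the labels stand for
`0, 1, 6, 8`). -/
def rep (l : Fin 4) (i j : Fin 2) : Bool :=
  (l == 1 && i == 0 && j == 0) || (l == 2 && i != j) || (l == 3 && i == 1 && j == 1)

theorem types_mem : ∀ x y z u : Bool, (z = true → u = true → x = false ∧ y = false) →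
    (x = true → y = true → z = false ∧ u = false) → (x, y, z, u) ∈ types := by
  decide +kernel

section sets

variable {α : Type*} [DecidableEq α]

/-- The code of a label lies in the list. -/
theorem code_mem (e : Fin 5 → α) (g0 g1 d0 d1 : Finset α) {a b c d w : Fin 5}
    (hab : a ≠ b) (hac : a ≠ c) (had : a ≠ d) (haw : a ≠ w) (hbc : b ≠ c) (hbd : b ≠ d)
    (hbw : b ≠ w) (hcd : c ≠ d) (hcw : c ≠ w) (hdw : d ≠ w)
    (a1 : e a ∈ g0) (a2 : e a ∉ g1) (a3 : e a ∈ d0) (a4 : e a ∉ d1)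
    (b1 : e b ∈ g0) (b2 : e b ∉ g1) (b3 : e b ∉ d0) (b4 : e b ∈ d1)
    (c1 : e c ∉ g0) (c2 : e c ∈ g1) (c3 : e c ∈ d0) (c4 : e c ∉ d1)
    (e1 : e d ∉ g0) (e2 : e d ∈ g1) (e3 : e d ∉ d0) (e4 : e d ∈ d1) :
    code (msk e g0) (msk e g1) (msk e d0) (msk e d1) =
      cfg (2 ^ (a : ℕ), 2 ^ (b : ℕ), 2 ^ (c : ℕ), 2 ^ (d : ℕ), 2 ^ (w : ℕ))
        (decide (e w ∈ g0), decide (e w ∈ g1), decide (e w ∈ d0), decide (e w ∈ d1)) := by
  have h := fun S : Finset α => msk_perm a b c d w hab hac had haw hbc hbd hbw hcd hcw hdw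
    (fun k => decide (e k ∈ S))
  have h0 := h g0
  have h1 := h g1
  have h2 := h d0
  have h3 := h d1
  simp only [a1, b1, c1, e1, decide_true, decide_false, cond_true, cond_false] at h0
  simp only [a2, b2, c2, e2, decide_true, decide_false, cond_true, cond_false] at h1
  simp only [a3, b3, c3, e3, decide_true, decide_false, cond_true, cond_false] at h2
  simp only [a4, b4, c4, e4, decide_true, decide_false, cond_true, cond_false] at h3
  unfold msk cfg
  rw [h0, h1, h2, h3]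
  simp only [Nat.add_zero, Nat.zero_add]

/-- The finite check for `r = 7`: four labels cannot be realised on five elements. -/
theorem no_four (G : Finset α) (hG : G.card = 5) (gam del : Fin 4 → Fin 2 → Finset α)
    (hgam : ∀ l i, gam l i ⊆ G) (hdel : ∀ l j, del l j ⊆ G)
    (priv : ∀ l i j, ∃ g, g ∈ gam l i ∧ g ∈ del l j ∧ g ∉ gam l (1 - i) ∧ g ∉ del l (1 - j))
    (ty1 : ∀ l w, w ∈ del l 0 → w ∈ del l 1 → ∀ i, w ∉ gam l i)
    (ty2 : ∀ l w, w ∈ gam l 0 → w ∈ gam l 1 → ∀ j, w ∉ del l j)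
    (orth1 : ∀ l l' i j, rep l i j = rep l' i j → (gam l i ∩ del l' j).Nonempty)
    (orth2 : ∀ l l' i j, rep l i j ≠ rep l' i j → (gam l i ∩ del l' j).card ≠ 1) : False := by
  -- the private elements
  have key : ∀ l, ∃ g00 g01 g10 g11 : α,
      (g00 ∈ gam l 0 ∧ g00 ∉ gam l 1 ∧ g00 ∈ del l 0 ∧ g00 ∉ del l 1) ∧
      (g01 ∈ gam l 0 ∧ g01 ∉ gam l 1 ∧ g01 ∉ del l 0 ∧ g01 ∈ del l 1) ∧
      (g10 ∉ gam l 0 ∧ g10 ∈ gam l 1 ∧ g10 ∈ del l 0 ∧ g10 ∉ del l 1) ∧
      (g11 ∉ gam l 0 ∧ g11 ∈ gam l 1 ∧ g11 ∉ del l 0 ∧ g11 ∈ del l 1) := by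
    intro l
    obtain ⟨g00, p1, p2, p3, p4⟩ := priv l 0 0
    obtain ⟨g01, q1, q2, q3, q4⟩ := priv l 0 1
    obtain ⟨g10, r1, r2, r3, r4⟩ := priv l 1 0
    obtain ⟨g11, s1, s2, s3, s4⟩ := priv l 1 1
    exact ⟨g00, g01, g10, g11, ⟨p1, p3, p2, p4⟩, ⟨q1, q3, q4, q2⟩, ⟨r3, r1, r2, r4⟩,
      ⟨s3, s1, s4, s2⟩⟩
  -- the enumeration of `G`
  obtain ⟨g00, g01, g10, g11, ⟨p1, p2, p3, p4⟩, ⟨q1, q2, q3, q4⟩, ⟨r1, r2, r3, r4⟩,
    ⟨s1, s2, s3, s4⟩⟩ := key 0
  have n1 : g00 ≠ g01 := fun h => p4 (h ▸ q4)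
  have n2 : g00 ≠ g10 := fun h => r1 (h ▸ p1)
  have n3 : g00 ≠ g11 := fun h => s1 (h ▸ p1)
  have n4 : g01 ≠ g10 := fun h => r1 (h ▸ q1)
  have n5 : g01 ≠ g11 := fun h => s1 (h ▸ q1)
  have n6 : g10 ≠ g11 := fun h => s3 (h ▸ r3)
  have hsub : ({g00, g01, g10, g11} : Finset α) ⊆ G := by
    intro x hx
    simp only [Finset.mem_insert, Finset.mem_singleton] at hx
    rcases hx with rfl | rfl | rfl | rfl
    · exact hgam 0 0 p1
    · exact hgam 0 0 q1
    · exact hgam 0 1 r2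
    · exact hgam 0 1 s2
  have hcard : (G \ {g00, g01, g10, g11}).card = 1 := by
    rw [Finset.card_sdiff_of_subset hsub, hG,
      Finset.card_insert_of_notMem (by simp [n1, n2, n3]),
      Finset.card_insert_of_notMem (by simp [n4, n5]),
      Finset.card_insert_of_notMem (by simp [n6]), Finset.card_singleton]
  obtain ⟨w0, hw0⟩ := Finset.card_eq_one.1 hcard
  have hw : w0 ∈ G ∧ w0 ∉ ({g00, g01, g10, g11} : Finset α) := by
    have : w0 ∈ G \ {g00, g01, g10, g11} := by rw [hw0]; exact Finset.mem_singleton_self _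
    exact Finset.mem_sdiff.1 this
  have hwn : w0 ≠ g00 ∧ w0 ≠ g01 ∧ w0 ≠ g10 ∧ w0 ≠ g11 := by
    have := hw.2
    simp only [Finset.mem_insert, Finset.mem_singleton, not_or] at this
    exact this
  let e : Fin 5 → α := ![g00, g01, g10, g11, w0]
  have e0 : e 0 = g00 := rfl
  have e1 : e 1 = g01 := rfl
  have e2 : e 2 = g10 := rfl
  have e3 : e 3 = g11 := rfl
  have e4 : e 4 = w0 := rfl
  have hsurj : ∀ x ∈ G, ∃ k, e k = x := by
    intro x hx
    by_cases h : x ∈ ({g00, g01, g10, g11} : Finset α)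
    · simp only [Finset.mem_insert, Finset.mem_singleton] at h
      rcases h with rfl | rfl | rfl | rfl
      · exact ⟨0, rfl⟩
      · exact ⟨1, rfl⟩
      · exact ⟨2, rfl⟩
      · exact ⟨3, rfl⟩
    · have : x ∈ G \ {g00, g01, g10, g11} := Finset.mem_sdiff.2 ⟨hx, h⟩
      rw [hw0, Finset.mem_singleton] at this
      exact ⟨4, this ▸ rfl⟩
  have hinj : Function.Injective e := by
    obtain ⟨m1, m2, m3, m4⟩ := hwn
    intro a b hab
    fin_cases a <;> fin_cases b <;> first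
      | rfl
      | exact absurd hab n1
      | exact absurd hab n1.symm
      | exact absurd hab n2
      | exact absurd hab n2.symm
      | exact absurd hab n3
      | exact absurd hab n3.symm
      | exact absurd hab n4
      | exact absurd hab n4.symm
      | exact absurd hab n5
      | exact absurd hab n5.symm
      | exact absurd hab n6
      | exact absurd hab n6.symm
      | exact absurd hab m1
      | exact absurd hab m1.symm
      | exact absurd hab m2
      | exact absurd hab m2.symm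
      | exact absurd hab m3
      | exact absurd hab m3.symm
      | exact absurd hab m4
      | exact absurd hab m4.symm
  have hgs : ∀ l i, ∀ x ∈ gam l i, ∃ k, e k = x := fun l i x hx => hsurj x (hgam l i hx)
  have hds : ∀ l i, ∀ x ∈ del l i, ∃ k, e k = x := fun l i x hx => hsurj x (hdel l i hx)
  -- types
  have hty : ∀ l w, (decide (e w ∈ gam l 0), decide (e w ∈ gam l 1), decide (e w ∈ del l 0),
      decide (e w ∈ del l 1)) ∈ types := by
    intro l w
    apply types_mem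
    · intro h1 h2
      have := ty1 l (e w) (of_decide_eq_true h1) (of_decide_eq_true h2)
      exact ⟨decide_eq_false (this 0), decide_eq_false (this 1)⟩
    · intro h1 h2
      have := ty2 l (e w) (of_decide_eq_true h1) (of_decide_eq_true h2)
      exact ⟨decide_eq_false (this 0), decide_eq_false (this 1)⟩
  let C : Fin 4 → ℕ := fun l => code (msk e (gam l 0)) (msk e (gam l 1)) (msk e (del l 0))
    (msk e (del l 1))
  have hm := fun S : Finset α => (enc_lt (decide (e 0 ∈ S)) (decide (e 1 ∈ S))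
    (decide (e 2 ∈ S)) (decide (e 3 ∈ S)) (decide (e 4 ∈ S)) : msk e S < 32)
  have hC : ∀ l, mA (C l) = msk e (gam l 0) ∧ mB (C l) = msk e (gam l 1) ∧
      mC (C l) = msk e (del l 0) ∧ mD (C l) = msk e (del l 1) :=
    fun l => masks_code (hm _) (hm _) (hm _)
  -- orthogonality
  have horth : ∀ l l' i j, orth (rep l i j == rep l' i j) (msk e (gam l i)) (msk e (del l' j)) =
      true := by
    intro l l' i j
    cases hb : (rep l i j == rep l' i j) with
    | true =>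
      exact ge1_msk (hgs l i) (orth1 l l' i j (beq_iff_eq.1 hb))
    | false =>
      exact ne1_msk hinj (hgs l i) (orth2 l l' i j (beq_eq_false_iff_ne.1 hb))
  have hcomp : ∀ l l', comp (rep l 0 0 == rep l' 0 0) (rep l 0 1 == rep l' 0 1)
      (rep l 1 0 == rep l' 1 0) (rep l 1 1 == rep l' 1 1) (C l) (C l') = true := by
    intro l l'
    obtain ⟨x1, x2, x3, x4⟩ := hC l
    obtain ⟨y1, y2, y3, y4⟩ := hC l'
    have hs : ∀ i j, (rep l i j == rep l' i j) = (rep l' i j == rep l i j) :=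
      fun i j => Bool.beq_comm
    have t1 := horth l' l 0 0
    have t2 := horth l' l 0 1
    have t3 := horth l' l 1 0
    have t4 := horth l' l 1 1
    rw [← hs] at t1 t2 t3 t4
    unfold comp
    rw [x1, x2, x3, x4, y1, y2, y3, y4, horth l l' 0 0, horth l l' 0 1, horth l l' 1 0,
      horth l l' 1 1, t1, t2, t3, t4]
    rfl
  -- membership
  have hmem : ∀ l, C l ∈ lits := by
    intro l
    obtain ⟨x00, x01, x10, x11, ⟨p1, p2, p3, p4⟩, ⟨q1, q2, q3, q4⟩, ⟨r1, r2, r3, r4⟩,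
      ⟨s1, s2, s3, s4⟩⟩ := key l
    obtain ⟨a, rfl⟩ := hgs l 0 x00 p1
    obtain ⟨b, rfl⟩ := hgs l 0 x01 q1
    obtain ⟨c, rfl⟩ := hgs l 1 x10 r2
    obtain ⟨d, rfl⟩ := hgs l 1 x11 s2
    have n1 : a ≠ b := fun h => p4 (h ▸ q4)
    have n2 : a ≠ c := fun h => r1 (h ▸ p1)
    have n3 : a ≠ d := fun h => s1 (h ▸ p1)
    have n4 : b ≠ c := fun h => r1 (h ▸ q1)
    have n5 : b ≠ d := fun h => s1 (h ▸ q1)
    have n6 : c ≠ d := fun h => s3 (h ▸ r3)
    obtain ⟨w, w1, w2, w3, w4⟩ := ex_fifth a b c d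
    have hcode := code_mem e (gam l 0) (gam l 1) (del l 0) (del l 1) n1 n2 n3 w1 n4 n5 w2 n6 w3 w4
      p1 p2 p3 p4 q1 q2 q3 q4 r1 r2 r3 r4 s1 s2 s3 s4
    change code _ _ _ _ ∈ lits
    rw [hcode, ← gen_eq, gen, List.mem_flatMap]
    refine ⟨_, mem_perms a b c d w ?_, List.mem_map.2 ⟨_, hty l w, rfl⟩⟩
    simp only [dist5, Bool.and_eq_true, decide_eq_true_eq]
    exact ⟨⟨⟨⟨⟨⟨⟨⟨⟨n1, n2⟩, n3⟩, w1⟩, n4⟩, n5⟩, w2⟩, n6⟩, w3⟩, w4⟩
  have hfirst : C 0 ∈ firsts := by
    have hcode := code_mem e (gam 0 0) (gam 0 1) (del 0 0) (del 0 1) (a := 0) (b := 1) (c := 2)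
      (d := 3) (w := 4) (by decide) (by decide) (by decide) (by decide) (by decide) (by decide)
      (by decide) (by decide) (by decide) (by decide)
      p1 p2 p3 p4 q1 q2 q3 q4 r1 r2 r3 r4 s1 s2 s3 s4
    change code _ _ _ _ ∈ firsts
    rw [hcode]
    exact List.mem_map.2 ⟨_, hty 0 4, rfl⟩
  exact no_codes hfirst (hmem 1) (hmem 2) (hmem 3) (hcomp 0 1) (hcomp 0 2) (hcomp 0 3)
    (hcomp 1 2) (hcomp 1 3) (hcomp 2 3)

end sets

end Pool.Agent.H59TE
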