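import Pool.Agent.H59TE.Fin5

/-!
# No four configurations on five elements: the theorem for sets
-/

set_option autoImplicit false

namespace Pool.Agent.H59TE

theorem no_codes {x0 x1 x2 x3 : ℕ} (h0 : x0 ∈ firsts) (h1 : x1 ∈ lits) (h2 : x2 ∈ lits)
    (h3 : x3 ∈ lits) (c01 : comp false true true true x0 x1 = true)
    (c02 : comp true false false true x0 x2 = true)
    (c03 : comp true true true false x0 x3 = true)
    (c12 : comp false false false true x1 x2 = true)
    (c13 : comp false true true false x1 x3 = true)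
    (c23 : comp true false false false x2 x3 = true) : False := by
  have hs : search x0 = true := List.all_eq_true.1 search_all x0 h0
  obtain ⟨L1, k1, -, m1⟩ := filterK_spec _ _ _ _ hs
  obtain ⟨L2, k2, -, m2⟩ := filterK_spec _ _ _ _ k1
  obtain ⟨L3, k3, -, m3⟩ := filterK_spec _ _ _ _ k2
  have e1 := List.all_eq_true.1 k3 x1 (m1 x1 h1 c01)
  have e2 := List.all_eq_true.1 e1 x2 (m2 x2 h2 c02)
  rw [c12] at e2
  have e3 := List.all_eq_true.1 (by simpa using e2 : (L3.all fun c =>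
    !(comp false true true false x1 c && comp true false false false x2 c)) = true) x3
    (m3 x3 h3 c03)
  rw [c13, c23] at e3
  exact absurd e3 (by decide)

/-- The mask of five truth values. -/
def enc (a0 a1 a2 a3 a4 : Bool) : ℕ :=
  cond a0 1 0 + cond a1 2 0 + cond a2 4 0 + cond a3 8 0 + cond a4 16 0

theorem ge1_enc : ∀ a0 a1 a2 a3 a4 b0 b1 b2 b3 b4 : Bool,
    ge1 (enc a0 a1 a2 a3 a4) (enc b0 b1 b2 b3 b4) =
      ((a0 && b0) || (a1 && b1) || (a2 && b2) || (a3 && b3) || (a4 && b4)) := by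
  decide +kernel

theorem ne1_enc : ∀ a0 a1 a2 a3 a4 b0 b1 b2 b3 b4 : Bool,
    ne1 (enc a0 a1 a2 a3 a4) (enc b0 b1 b2 b3 b4) =
      !(Nat.beq (cond (a0 && b0) 1 0 + cond (a1 && b1) 1 0 + cond (a2 && b2) 1 0 +
        cond (a3 && b3) 1 0 + cond (a4 && b4) 1 0) 1) := by
  decide +kernel

theorem enc_lt : ∀ a0 a1 a2 a3 a4 : Bool, enc a0 a1 a2 a3 a4 < 32 := by decide +kernel

theorem masks_code {a b c d : ℕ} (ha : a < 32) (hb : b < 32) (hc : c < 32) :
    mA (code a b c d) = a ∧ mB (code a b c d) = b ∧ mC (code a b c d) = c ∧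
      mD (code a b c d) = d := by
  have h1 : ∀ n : ℕ, Nat.land n 31 = n % 32 := fun n => by
    have := Nat.and_two_pow_sub_one_eq_mod n 5
    simpa using this
  have h2 : ∀ n k : ℕ, Nat.shiftRight n k = n / 2 ^ k := fun n k => Nat.shiftRight_eq_div_pow n k
  simp only [mA, mB, mC, mD, code, h1, h2]
  refine ⟨?_, ?_, ?_, ?_⟩ <;> omega

section sets

variable {α : Type*} [DecidableEq α]

/-- The mask of a set with respect to five points. -/
def msk (e : Fin 5 → α) (S : Finset α) : ℕ :=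
  enc (decide (e 0 ∈ S)) (decide (e 1 ∈ S)) (decide (e 2 ∈ S)) (decide (e 3 ∈ S))
    (decide (e 4 ∈ S))

theorem ge1_msk {e : Fin 5 → α} {S T : Finset α} (hS : ∀ x ∈ S, ∃ k, e k = x)
    (h : (S ∩ T).Nonempty) : ge1 (msk e S) (msk e T) = true := by
  obtain ⟨x, hx⟩ := h
  obtain ⟨h1, h2⟩ := Finset.mem_inter.1 hx
  obtain ⟨k, rfl⟩ := hS x h1
  rw [msk, msk, ge1_enc]
  fin_cases k
  · have e1 : e 0 ∈ S := h1
    have e2 : e 0 ∈ T := h2
    simp [e1, e2]
  · have e1 : e 1 ∈ S := h1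
    have e2 : e 1 ∈ T := h2
    simp [e1, e2]
  · have e1 : e 2 ∈ S := h1
    have e2 : e 2 ∈ T := h2
    simp [e1, e2]
  · have e1 : e 3 ∈ S := h1
    have e2 : e 3 ∈ T := h2
    simp [e1, e2]
  · have e1 : e 4 ∈ S := h1
    have e2 : e 4 ∈ T := h2
    simp [e1, e2]

theorem ne1_msk {e : Fin 5 → α} (he : Function.Injective e) {S T : Finset α}
    (hS : ∀ x ∈ S, ∃ k, e k = x)
    (h : (S ∩ T).card ≠ 1) : ne1 (msk e S) (msk e T) = true := by
  have hc : (S ∩ T).card = (cond (decide (e 0 ∈ S) && decide (e 0 ∈ T)) 1 0 +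
      cond (decide (e 1 ∈ S) && decide (e 1 ∈ T)) 1 0 +
      cond (decide (e 2 ∈ S) && decide (e 2 ∈ T)) 1 0 +
      cond (decide (e 3 ∈ S) && decide (e 3 ∈ T)) 1 0 +
      cond (decide (e 4 ∈ S) && decide (e 4 ∈ T)) 1 0) := by
    have h1 : S ∩ T = (Finset.univ.filter fun k => e k ∈ S ∧ e k ∈ T).image e := by
      ext x
      simp only [Finset.mem_inter, Finset.mem_image, Finset.mem_filter, Finset.mem_univ, true_and]
      constructor
      · rintro ⟨hx, hx'⟩
        obtain ⟨k, rfl⟩ := hS x hx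
        exact ⟨k, ⟨hx, hx'⟩, rfl⟩
      · rintro ⟨k, hk, rfl⟩
        exact hk
    rw [h1, Finset.card_image_of_injective _ he, Finset.card_filter, Fin.sum_univ_five]
    simp only [Bool.cond_eq_ite, Bool.and_eq_true, decide_eq_true_eq]
  rw [msk, msk, ne1_enc, ← hc]
  cases hb : Nat.beq (S ∩ T).card 1 with
  | false => rfl
  | true => exact absurd (Nat.eq_of_beq_eq_true hb) h

/-- The mask with the bits in another order. -/
theorem msk_perm : ∀ (a b c d w : Fin 5), a ≠ b → a ≠ c → a ≠ d → a ≠ w → b ≠ c → b ≠ d → b ≠ w →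
    c ≠ d → c ≠ w → d ≠ w → ∀ f : Fin 5 → Bool,
    enc (f 0) (f 1) (f 2) (f 3) (f 4) =
      cond (f a) (2 ^ (a : ℕ)) 0 + cond (f b) (2 ^ (b : ℕ)) 0 + cond (f c) (2 ^ (c : ℕ)) 0 +
        cond (f d) (2 ^ (d : ℕ)) 0 + cond (f w) (2 ^ (w : ℕ)) 0 := by
  intro a b c d w h1 h2 h3 h4 h5 h6 h7 h8 h9 h10 f
  have hU : (Finset.univ : Finset (Fin 5)) = {a, b, c, d, w} := by
    symm
    apply Finset.eq_univ_of_card
    rw [Finset.card_insert_of_notMem (by simp [h1, h2, h3, h4]),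
      Finset.card_insert_of_notMem (by simp [h5, h6, h7]),
      Finset.card_insert_of_notMem (by simp [h8, h9]),
      Finset.card_insert_of_notMem (by simp [h10]), Finset.card_singleton, Fintype.card_fin]
  have h : enc (f 0) (f 1) (f 2) (f 3) (f 4) = ∑ k : Fin 5, cond (f k) (2 ^ (k : ℕ)) 0 := by
    rw [Fin.sum_univ_five]
    rfl
  rw [h, hU, Finset.sum_insert (by simp [h1, h2, h3, h4]),
      Finset.sum_insert (by simp [h5, h6, h7]),
      Finset.sum_insert (by simp [h8, h9]),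
      Finset.sum_insert (by simp [h10]), Finset.sum_singleton]
  ring

/-- The five points are distinct. -/
def dist5 (a b c d w : Fin 5) : Bool :=
  decide (a ≠ b) && decide (a ≠ c) && decide (a ≠ d) && decide (a ≠ w) && decide (b ≠ c) &&
  decide (b ≠ d) && decide (b ≠ w) && decide (c ≠ d) && decide (c ≠ w) && decide (d ≠ w)

theorem mem_perms : ∀ (a b c d w : Fin 5), dist5 a b c d w = true →
    (((2 ^ (a : ℕ), 2 ^ (b : ℕ), 2 ^ (c : ℕ), 2 ^ (d : ℕ), 2 ^ (w : ℕ)) : ℕ × ℕ × ℕ × ℕ × ℕ) ∈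
      perms) := by
  decide +kernel

theorem ex_fifth : ∀ (a b c d : Fin 5), ∃ w, a ≠ w ∧ b ≠ w ∧ c ≠ w ∧ d ≠ w := by
  decide +kernel

end sets

end Pool.Agent.H59TE
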